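import Mathlib

/-!
# The nim-sequence and its zero-indicator can have different periods

For the subtraction set `S = {3, 5, 10, 11, 14}` the nim-sequence has period `8` while the
zero-indicator (the sequence of outcomes) has period `4`.
-/

set_option autoImplicit false

namespace Pool.Agent.Results.MP_052694_co.PeriodsDiffer

/-- The least nonnegative integer not in the finite set `A`. -/
noncomputable def mex (A : Finset ℕ) : ℕ := sInf {m : ℕ | m ∉ A}

/-- The nim-value `𝒢(n)` of a pile of size `n` in the subtraction game with subtraction set `S`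
(only the positive elements of `S` are used): `𝒢(n) = mex {𝒢(n - s) : s ∈ S, s ≤ n}`. -/
noncomputable def nimValue (S : Finset ℕ) (n : ℕ) : ℕ :=
  mex ((S.filter (fun s => 0 < s ∧ s ≤ n)).attach.image fun s => nimValue S (n - s.1))
termination_by n
decreasing_by
  have h := (Finset.mem_filter.1 s.2).2
  omega

/-- The zero-indicator of the nim-sequence. -/
noncomputable def zeroIndicator (S : Finset ℕ) (n : ℕ) : ℕ := if nimValue S n = 0 then 0 else 1

/-- `p` is the period of the ultimately periodic sequence `a`: the least `p ≥ 1` for which there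
is an `n₀` with `a (n + p) = a n` for all `n ≥ n₀`. -/
def HasPeriod (a : ℕ → ℕ) (p : ℕ) : Prop :=
  IsLeast {p : ℕ | 1 ≤ p ∧ ∃ n₀ : ℕ, ∀ n : ℕ, n₀ ≤ n → a (n + p) = a n} p

/-- The defining recursion, for a set `S` of positive integers. -/
theorem nimValue_eq {S : Finset ℕ} (hS : ∀ s ∈ S, 1 ≤ s) (n : ℕ) :
    nimValue S n = mex ((S.filter (fun s => s ≤ n)).image fun s => nimValue S (n - s)) := by
  rw [nimValue]
  congr 1
  ext m
  simp only [Finset.mem_image, Finset.mem_attach, true_and, Subtype.exists, Finset.mem_filter]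
  constructor
  · rintro ⟨s, ⟨h1, h2, h3⟩, h4⟩
    exact ⟨s, ⟨h1, h3⟩, h4⟩
  · rintro ⟨s, ⟨h1, h3⟩, h4⟩
    exact ⟨s, ⟨h1, hS s h1, h3⟩, h4⟩

theorem mex_eq {A : Finset ℕ} {m : ℕ} (h1 : m ∉ A) (h2 : ∀ k, k < m → k ∈ A) : mex A = m := by
  apply le_antisymm
  · exact Nat.sInf_le h1
  · refine le_csInf ⟨m, h1⟩ fun b hb => ?_
    by_contra hlt
    exact hb (h2 b (by omega))

/-- the subtraction set -/
def S0 : Finset ℕ := {3, 5, 10, 11, 14}

/-- the first 28 values -/
def pre : List ℕ := [0, 0, 0, 1, 1, 1, 2, 2, 0, 0, 3, 1, 1, 2, 2, 2, 3, 0, 3, 4, 1, 0, 2, 4, 1, 0, 5, 4]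

/-- the periodic part, indexed by `n % 8` -/
def per : List ℕ := [1, 0, 3, 3, 1, 0, 2, 2]

/-- closed form of the nim-sequence -/
def f (n : ℕ) : ℕ := if n < 28 then pre.getD n 0 else per.getD (n % 8) 0

theorem mem_S0 {s : ℕ} : s ∈ S0 ↔ s = 3 ∨ s = 5 ∨ s = 10 ∨ s = 11 ∨ s = 14 := by
  simp [S0]

theorem small : ∀ n < 42, f n ∉ (S0.filter (fun s => s ≤ n)).image (fun s => f (n - s)) ∧
    ∀ k < f n, k ∈ (S0.filter (fun s => s ≤ n)).image (fun s => f (n - s)) := by
  decide

theorem f_shift (n : ℕ) (h : 28 ≤ n) : f (n + 8) = f n := by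
  unfold f
  rw [if_neg (by omega), if_neg (by omega)]
  congr 1
  omega

theorem f_step (n : ℕ) : f n ∉ (S0.filter (fun s => s ≤ n)).image (fun s => f (n - s)) ∧
    ∀ k < f n, k ∈ (S0.filter (fun s => s ≤ n)).image (fun s => f (n - s)) := by
  induction n using Nat.strong_induction_on with
  | _ n ih =>
    by_cases h : n < 42
    · exact small n h
    · -- reduce by 8
      by_cases h50 : n < 50
      · have : n = 42 ∨ n = 43 ∨ n = 44 ∨ n = 45 ∨ n = 46 ∨ n = 47 ∨ n = 48 ∨ n = 49 := by omega
        rcases this with rfl | rfl | rfl | rfl | rfl | rfl | rfl | rfl <;> decide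
      · have ih8 := ih (n - 8) (by omega)
        have hset : (S0.filter (fun s => s ≤ n)).image (fun s => f (n - s)) =
            (S0.filter (fun s => s ≤ n - 8)).image (fun s => f (n - 8 - s)) := by
          have e1 : S0.filter (fun s => s ≤ n) = S0.filter (fun s => s ≤ n - 8) := by
            apply Finset.filter_congr
            intro s hs
            rw [mem_S0] at hs
            omega
          rw [e1]
          apply Finset.image_congr
          intro s hs
          have hs' : s ∈ S0 := (Finset.mem_filter.1 hs).1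
          rw [mem_S0] at hs'
          have := f_shift (n - 8 - s) (by omega)
          show f (n - s) = f (n - 8 - s)
          rw [← this]
          congr 1
          omega
        have hf : f n = f (n - 8) := by
          have := f_shift (n - 8) (by omega)
          rw [← this]
          congr 1
          omega
        rw [hset, hf]
        exact ih8

theorem pos_S0 : ∀ s ∈ S0, 1 ≤ s := by
  intro s hs
  rw [mem_S0] at hs
  omega

theorem nim_S0 (n : ℕ) : nimValue S0 n = f n := by
  induction n using Nat.strong_induction_on with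
  | _ n ih =>
    rw [nimValue_eq pos_S0]
    have e : (S0.filter (fun s => s ≤ n)).image (fun s => nimValue S0 (n - s)) =
        (S0.filter (fun s => s ≤ n)).image (fun s => f (n - s)) := by
      apply Finset.image_congr
      intro s hs
      have h1 := (Finset.mem_filter.1 hs).1
      have h2 := (Finset.mem_filter.1 hs).2
      have := pos_S0 s h1
      exact ih (n - s) (by omega)
    rw [e]
    exact mex_eq (f_step n).1 (f_step n).2

/-- **Theorem.** For the subtraction set `S = {3, 5, 10, 11, 14}` the nim-sequence has period `8`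
and its zero-indicator has period `4`.  So the two periods can differ. -/
theorem result :
    ∃ S : Finset ℕ, S.Nonempty ∧ (∀ s ∈ S, 1 ≤ s) ∧
      HasPeriod (nimValue S) 8 ∧ HasPeriod (zeroIndicator S) 4 := by
  refine ⟨S0, ⟨3, by decide⟩, pos_S0, ⟨⟨by norm_num, 28, fun n hn => ?_⟩, ?_⟩,
    ⟨⟨by norm_num, 28, fun n hn => ?_⟩, ?_⟩⟩
  · rw [nim_S0, nim_S0]
    exact f_shift n hn
  · rintro p ⟨hp1, n₀, hp⟩
    by_contra hlt
    have h := hp (8 * (n₀ + 4) + 1)
    have h2 := hp (8 * (n₀ + 4) + 3)
    have h3 := hp (8 * (n₀ + 4) + 4)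
    rw [nim_S0, nim_S0] at h h2 h3
    have e : ∀ j, f (8 * (n₀ + 4) + j) = per.getD (j % 8) 0 := by
      intro j
      unfold f
      rw [if_neg (by omega)]
      congr 1
      omega
    have h' := h (by omega)
    have h2' := h2 (by omega)
    have h3' := h3 (by omega)
    rw [add_assoc, e, e] at h' h2' h3'
    have : p = 1 ∨ p = 2 ∨ p = 3 ∨ p = 4 ∨ p = 5 ∨ p = 6 ∨ p = 7 := by omega
    rcases this with rfl | rfl | rfl | rfl | rfl | rfl | rfl <;> revert h' h2' h3' <;> decide
  · unfold zeroIndicator
    rw [nim_S0, nim_S0]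
    have f1 : f (n + 4) = per.getD ((n + 4) % 8) 0 := by
      unfold f
      rw [if_neg (by omega)]
    have f2 : f n = per.getD (n % 8) 0 := by
      unfold f
      rw [if_neg (by omega)]
    rw [f1, f2]
    have h1 : n % 8 = 0 ∨ n % 8 = 1 ∨ n % 8 = 2 ∨ n % 8 = 3 ∨ n % 8 = 4 ∨ n % 8 = 5 ∨ n % 8 = 6 ∨
      n % 8 = 7 := by omega
    have h2 : (n + 4) % 8 = (n % 8 + 4) % 8 := by omega
    rw [h2]
    rcases h1 with h | h | h | h | h | h | h | h <;> rw [h] <;> decide
  · rintro p ⟨hp1, n₀, hp⟩
    by_contra hlt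
    have h := hp (8 * (n₀ + 4) + 1) (by omega)
    unfold zeroIndicator at h
    rw [nim_S0, nim_S0] at h
    have e : ∀ j, f (8 * (n₀ + 4) + j) = per.getD (j % 8) 0 := by
      intro j
      unfold f
      rw [if_neg (by omega)]
      congr 1
      omega
    rw [add_assoc, e, e] at h
    have : p = 1 ∨ p = 2 ∨ p = 3 := by omega
    rcases this with rfl | rfl | rfl <;> revert h <;> decide

end Pool.Agent.Results.MP_052694_co.PeriodsDiffer
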